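import Pool.Agent.Lib.H22W.Poly

/-!
# The procedure is correct for all instances with entries in a short interval
-/

open Pool.Agent.PolyTime

namespace Pool.Agent.Lib.H22W

theorem psum_eq_offn {N : ℕ} {l : List ℕ} (hl : ∀ m ∈ l, N ≤ m) (j : ℕ) : psum N l j = offn N l j := by
  rw [psum, offn, Nat.cast_list_sum, List.map_map]
  congr 1
  apply List.map_congr_left
  intro m hm
  simp only [Function.comp_apply]
  rw [Nat.cast_pow, Nat.cast_sub (hl m hm)]

theorem rsum_perm {l₁ l₂ : List ℕ} (hp : l₁.Perm l₂) : rsum l₁ = rsum l₂ := (hp.map _).sum_eq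

theorem offn_perm {N j : ℕ} {l₁ l₂ : List ℕ} (hp : l₁.Perm l₂) : offn N l₁ j = offn N l₂ j :=
  (hp.map _).sum_eq

theorem ansj_iff {a : List ℕ × List ℕ} {j : ℕ}
    (hne : offn (mn (a.1 ++ a.2)) a.1 j ≠ offn (mn (a.1 ++ a.2)) a.2 j) :
    ansj a j = true ↔
      ¬ 0 < sg j * ((offn (mn (a.1 ++ a.2)) a.1 j : ℤ) - offn (mn (a.1 ++ a.2)) a.2 j) := by
  rw [ansj]
  by_cases hpos : posj j = true
  · have h1 : sg j = 1 := by
      rw [posj, decide_eq_true_iff] at hpos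
      rcases hpos with h | h
      · simp [sg, h]
      · have h2 : j ≠ 0 := by omega
        have h3 : Even (j + 1) := by
          rw [Nat.even_iff]
          omega
        rw [sg, if_neg h2, h3.neg_one_pow]
    rw [hpos, h1, cond_true, decide_eq_true_iff]
    omega
  · have h1 : sg j = -1 := by
      rw [posj, decide_eq_true_iff] at hpos
      push Not at hpos
      have h3 : Odd (j + 1) := by
        rw [Nat.odd_iff]
        have := hpos.2
        omega
      rw [sg, if_neg hpos.1, h3.neg_one_pow]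
    rw [Bool.not_eq_true] at hpos
    rw [hpos, h1, cond_false, decide_eq_true_iff]
    omega

variable {N h J : ℕ} {l₁ l₂ : List ℕ}

theorem window_gap (hN : 1 ≤ N) (hh : 1 ≤ h) (hl : ∀ m ∈ l₁ ++ l₂, N ≤ m ∧ m ≤ N + h)
    (hJ : √h * Real.log (2 * ((l₁.length + l₂.length : ℕ) : ℝ)) ≤ J)
    (hbig : 2 * (l₁.length + l₂.length) * h ^ (J + 1) ≤ N) (hp : ¬ l₁.Perm l₂) :
    √N / (2 * (4 * N) ^ J) ≤ |rsum l₁ - rsum l₂| := by
  obtain ⟨j, hj, -, -, -, h1, -⟩ := lists_main hN hh (fun m hm => hl m (List.mem_append_left _ hm))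
    (fun m hm => hl m (List.mem_append_right _ hm)) (Or.inr hJ) hbig hp
  refine le_trans ?_ h1
  have hN' : (1 : ℝ) ≤ 4 * N := by
    have : (1 : ℝ) ≤ N := by exact_mod_cast hN
    linarith
  have h2 : (4 * (N : ℝ)) ^ j ≤ (4 * N) ^ J := pow_le_pow_right₀ hN' hj
  have h3 : (0 : ℝ) < (4 * (N : ℝ)) ^ j := by positivity
  gcongr

theorem window_eq_iff (hN : 1 ≤ N) (hh : 1 ≤ h) (hl : ∀ m ∈ l₁ ++ l₂, N ≤ m ∧ m ≤ N + h)
    (hJ : √h * Real.log (2 * ((l₁.length + l₂.length : ℕ) : ℝ)) ≤ J)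
    (hbig : 2 * (l₁.length + l₂.length) * h ^ (J + 1) ≤ N) : rsum l₁ = rsum l₂ ↔ l₁.Perm l₂ := by
  refine ⟨fun he => ?_, rsum_perm⟩
  by_contra hp
  have h1 := window_gap hN hh hl hJ hbig hp
  rw [he, sub_self, abs_zero] at h1
  have hN' : (0 : ℝ) < N := by exact_mod_cast hN
  have h2 : 0 < √(N : ℝ) / (2 * (4 * N) ^ J) := by positivity
  linarith

theorem window_decides (hN : 1 ≤ N) (hh : 1 ≤ h) (hl : ∀ m ∈ l₁ ++ l₂, N ≤ m ∧ m ≤ N + h)
    (hJ : √h * Real.log (2 * ((l₁.length + l₂.length : ℕ) : ℝ)) ≤ J)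
    (hbig : 2 * (l₁.length + l₂.length) * h ^ (J + 1) ≤ N) :
    sqrtLE (l₁, l₂) = true ↔ rsum l₁ ≤ rsum l₂ := by
  by_cases hp : l₁.Perm l₂
  · have h1 : sqrtLE (l₁, l₂) = true := sqrtLE_equal fun j => offn_perm hp
    rw [h1, rsum_perm hp]
    simp
  · have hne : l₁ ++ l₂ ≠ [] := by
      intro h0
      obtain ⟨h1, h2⟩ := List.append_eq_nil_iff.1 h0
      apply hp
      rw [h1, h2]
    have hmem := mn_mem hne
    set N' := mn (l₁ ++ l₂) with hN'
    have hNN' : N ≤ N' := (hl _ hmem).1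
    have hl' : ∀ m ∈ l₁ ++ l₂, N' ≤ m ∧ m ≤ N' + h := fun m hm =>
      ⟨mn_le hm, (hl m hm).2.trans (by omega)⟩
    obtain ⟨j, -, hjn, hj1, hj2, -, hj3⟩ := lists_main (hN.trans hNN') hh
      (fun m hm => hl' m (List.mem_append_left _ hm)) (fun m hm => hl' m (List.mem_append_right _ hm))
      (Or.inr hJ) (hbig.trans hNN') hp
    have e₁ : ∀ i, psum N' l₁ i = offn N' l₁ i :=
      psum_eq_offn fun m hm => (hl' m (List.mem_append_left _ hm)).1
    have e₂ : ∀ i, psum N' l₂ i = offn N' l₂ i :=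
      psum_eq_offn fun m hm => (hl' m (List.mem_append_right _ hm)).1
    have hne' : offn N' l₁ j ≠ offn N' l₂ j := by
      intro hcon
      apply hj2
      rw [e₁, e₂, hcon]
    have h1 : sqrtLE (l₁, l₂) = ansj (l₁, l₂) j := by
      apply sqrtLE_first
      · exact hjn
      · exact hne'
      · intro i hi
        have := hj1 i hi
        rw [e₁, e₂] at this
        exact_mod_cast this
    have h2 := ansj_iff (a := (l₁, l₂)) (j := j) hne'
    rw [h1, h2]
    rw [e₁, e₂] at hj3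
    show ¬ 0 < sg j * ((offn N' l₁ j : ℤ) - offn N' l₂ j) ↔ _
    rw [← hj3, not_lt]

end Pool.Agent.Lib.H22W
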