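import Pool.Agent.Lib.H22W.Moments

/-!
# Lists with entries in an interval; subsets with equal moments
-/

open Finset

namespace Pool.Agent.Lib.H22W

/-- The power sums `∑ (m - N) ^ i` over the entries `m` of a list. -/
def psum (N : ℕ) (l : List ℕ) (i : ℕ) : ℤ := (l.map fun m : ℕ => ((m : ℤ) - N) ^ i).sum

/-- The sum of the square roots of the entries. -/
noncomputable def rsum (l : List ℕ) : ℝ := (l.map fun m : ℕ => √(m : ℝ)).sum

theorem sum_count {R : Type*} [CommRing R] {N h : ℕ} (φ : ℕ → R) (l : List ℕ)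
    (hl : ∀ m ∈ l, N ≤ m ∧ m ≤ N + h) :
    ∑ x ∈ range (h + 1), ((l.count (N + x) : ℕ) : R) * φ (N + x) = (l.map φ).sum := by
  induction l with
  | nil => simp
  | cons a l ih =>
    have h1 := ih fun m hm => hl m (List.mem_cons_of_mem _ hm)
    obtain ⟨h2, h3⟩ := hl a List.mem_cons_self
    obtain ⟨x₀, rfl⟩ := Nat.exists_eq_add_of_le h2
    have h4 : x₀ ∈ range (h + 1) := mem_range.2 (by omega)
    rw [List.map_cons, List.sum_cons, ← h1]
    have h5 : ∀ x ∈ range (h + 1), ((List.count (N + x) ((N + x₀) :: l) : ℕ) : R) * φ (N + x) =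
        (if x = x₀ then φ (N + x₀) else 0) + ((l.count (N + x) : ℕ) : R) * φ (N + x) := by
      intro x _
      rw [List.count_cons]
      by_cases hx : x = x₀
      · subst hx
        simp
        ring
      · have : ¬ x₀ = x := fun hcon => hx hcon.symm
        simp [hx, this]
    rw [sum_congr rfl h5, sum_add_distrib, sum_ite_eq' (range (h + 1)) x₀, if_pos h4]

/-- The coefficients of the difference of two lists. -/
def cf (N : ℕ) (l₁ l₂ : List ℕ) (x : ℕ) : ℤ := (l₁.count (N + x) : ℤ) - l₂.count (N + x)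

section

variable {N h : ℕ} {l₁ l₂ : List ℕ}

theorem form_cf (h₁ : ∀ m ∈ l₁, N ≤ m ∧ m ≤ N + h) (h₂ : ∀ m ∈ l₂, N ≤ m ∧ m ≤ N + h) :
    form N h (cf N l₁ l₂) = rsum l₁ - rsum l₂ := by
  rw [rsum, rsum, ← sum_count (fun m => √(m : ℝ)) l₁ h₁, ← sum_count (fun m => √(m : ℝ)) l₂ h₂,
    ← sum_sub_distrib, form]
  refine sum_congr rfl fun x _ => ?_
  rw [cf]
  push_cast
  ring

theorem mom_cf (h₁ : ∀ m ∈ l₁, N ≤ m ∧ m ≤ N + h) (h₂ : ∀ m ∈ l₂, N ≤ m ∧ m ≤ N + h) (i : ℕ) :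
    mom h (cf N l₁ l₂) i = psum N l₁ i - psum N l₂ i := by
  rw [psum, psum, ← sum_count (fun m => ((m : ℤ) - N) ^ i) l₁ h₁,
    ← sum_count (fun m => ((m : ℤ) - N) ^ i) l₂ h₂, ← sum_sub_distrib, mom]
  refine sum_congr rfl fun x _ => ?_
  have e : ((N + x : ℕ) : ℤ) - N = x := by
    push_cast
    ring
  rw [cf, e]
  ring

theorem wt_cf (h₁ : ∀ m ∈ l₁, N ≤ m ∧ m ≤ N + h) (h₂ : ∀ m ∈ l₂, N ≤ m ∧ m ≤ N + h) :
    wt h (cf N l₁ l₂) ≤ l₁.length + l₂.length := by
  have e : ∀ l : List ℕ, (∀ m ∈ l, N ≤ m ∧ m ≤ N + h) →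
      ∑ x ∈ range (h + 1), l.count (N + x) = l.length := by
    intro l hl
    have h3 := sum_count (R := ℤ) (fun _ => 1) l hl
    simp only [mul_one, List.map_const', List.sum_replicate, nsmul_eq_mul] at h3
    exact_mod_cast h3
  rw [← e l₁ h₁, ← e l₂ h₂, ← sum_add_distrib, wt]
  refine sum_le_sum fun x _ => ?_
  rw [cf]
  omega

theorem card_supp_le (h : ℕ) (c : ℕ → ℤ) : (supp h c).card ≤ wt h c := by
  rw [wt, card_eq_sum_ones, supp, sum_filter]
  refine sum_le_sum fun x _ => ?_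
  by_cases hx : c x = 0
  · simp [hx]
  · rw [if_pos hx]
    have := Int.natAbs_pos.2 hx
    omega

theorem supp_nonempty (h₁ : ∀ m ∈ l₁, N ≤ m ∧ m ≤ N + h) (h₂ : ∀ m ∈ l₂, N ≤ m ∧ m ≤ N + h)
    (hp : ¬ l₁.Perm l₂) : (supp h (cf N l₁ l₂)).Nonempty := by
  by_contra hcon
  rw [not_nonempty_iff_eq_empty] at hcon
  apply hp
  rw [List.perm_iff_count]
  intro a
  by_cases ha : N ≤ a ∧ a ≤ N + h
  · obtain ⟨x, rfl⟩ := Nat.exists_eq_add_of_le ha.1
    by_contra hne
    have h3 : x ∈ supp h (cf N l₁ l₂) := by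
      refine mem_filter.2 ⟨mem_range.2 (by omega), ?_⟩
      rw [cf]
      omega
    rw [hcon] at h3
    exact absurd h3 (notMem_empty x)
  · have h3 : a ∉ l₁ := fun hm => ha (h₁ a hm)
    have h4 : a ∉ l₂ := fun hm => ha (h₂ a hm)
    rw [List.count_eq_zero_of_not_mem h3, List.count_eq_zero_of_not_mem h4]

/-- Two lists which are not permutations of each other. -/
theorem lists_main (hN : 1 ≤ N) (hh : 1 ≤ h) (h₁ : ∀ m ∈ l₁, N ≤ m ∧ m ≤ N + h)
    (h₂ : ∀ m ∈ l₂, N ≤ m ∧ m ≤ N + h) {J : ℕ}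
    (hJ : l₁.length + l₂.length ≤ J + 1 ∨ √h * Real.log (2 * ((l₁.length + l₂.length : ℕ) : ℝ)) ≤ J)
    (hbig : 2 * (l₁.length + l₂.length) * h ^ (J + 1) ≤ N) (hp : ¬ l₁.Perm l₂) :
    ∃ j ≤ J, j < l₁.length + l₂.length ∧ (∀ i < j, psum N l₁ i = psum N l₂ i) ∧
      psum N l₁ j ≠ psum N l₂ j ∧
      √N / (2 * (4 * N) ^ j) ≤ |rsum l₁ - rsum l₂| ∧
      (rsum l₂ < rsum l₁ ↔ 0 < sg j * (psum N l₁ j - psum N l₂ j)) := by
  have hsupp := supp_nonempty h₁ h₂ hp
  obtain ⟨j, hj1, hj2⟩ := exists_first hsupp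
  have hw := wt_cf h₁ h₂
  have hjJ : j ≤ J := by
    rcases hJ with hJ | hJ
    · have h3 := lt_card hsupp hj1
      have h4 := card_supp_le h (cf N l₁ l₂)
      omega
    · have h3 := lt_cheb hh hsupp hj1
      have hM : (1 : ℝ) ≤ wt h (cf N l₁ l₂) := by exact_mod_cast one_le_wt hsupp
      have h4 : Real.log (2 * wt h (cf N l₁ l₂)) ≤
          Real.log (2 * ((l₁.length + l₂.length : ℕ) : ℝ)) := by
        apply Real.log_le_log (by linarith)
        have : (wt h (cf N l₁ l₂) : ℝ) ≤ ((l₁.length + l₂.length : ℕ) : ℝ) := by exact_mod_cast hw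
        linarith
      have h5 : √(h : ℝ) * Real.log (2 * wt h (cf N l₁ l₂)) ≤
          √h * Real.log (2 * ((l₁.length + l₂.length : ℕ) : ℝ)) := by
        gcongr
      have h6 : (j : ℝ) < ((J + 1 : ℕ) : ℝ) := by
        push_cast
        linarith
      have h7 : j < J + 1 := by exact_mod_cast h6
      omega
  have hbig' : 2 * wt h (cf N l₁ l₂) * h ^ (j + 1) ≤ N := by
    refine le_trans ?_ hbig
    have h3 : h ^ (j + 1) ≤ h ^ (J + 1) := Nat.pow_le_pow_right hh (by omega)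
    have h4 : 2 * wt h (cf N l₁ l₂) ≤ 2 * (l₁.length + l₂.length) := by omega
    exact Nat.mul_le_mul h4 h3
  obtain ⟨h3, h4⟩ := form_bound hN hj1 hj2 hbig'
  rw [form_cf h₁ h₂] at h3 h4
  have hjn : j < l₁.length + l₂.length :=
    lt_of_lt_of_le (lt_card hsupp hj1) ((card_supp_le h _).trans hw)
  refine ⟨j, hjJ, hjn, fun i hi => ?_, ?_, h3, ?_⟩
  · have := hj1 i hi
    rw [mom_cf h₁ h₂] at this
    linarith
  · intro hcon
    apply hj2
    rw [mom_cf h₁ h₂, hcon, sub_self]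
  · rw [← mom_cf h₁ h₂ j, ← h4, sub_pos]

end

/-- Two different subsets of `{0, .., h}` with the same moments of index less than `K`. -/
theorem exists_subsets {h K : ℕ} (hK : (h + 2) ^ (K * (K + 1) / 2) < 2 ^ (h + 1)) :
    ∃ A B : Finset ℕ, A ⊆ range (h + 1) ∧ B ⊆ range (h + 1) ∧ A ≠ B ∧
      ∀ i < K, ∑ x ∈ A, x ^ i = ∑ x ∈ B, x ^ i := by
  classical
  set T : Finset ((i : Fin K) → ℕ) := Fintype.piFinset fun i : Fin K => range ((h + 2) ^ ((i : ℕ) + 1)) with hT
  have hcard : T.card < ((range (h + 1)).powerset).card := by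
    rw [hT, Fintype.card_piFinset, card_powerset, card_range]
    simp only [card_range]
    rw [prod_pow_eq_pow_sum]
    have e : ∑ i : Fin K, ((i : ℕ) + 1) = K * (K + 1) / 2 := by
      rw [Fin.sum_univ_eq_sum_range (fun i => i + 1) K]
      have h1 := Finset.sum_range_id_mul_two (K + 1)
      rw [sum_range_succ'] at h1
      simp only [Nat.add_sub_cancel, add_zero] at h1
      have h2 : (∑ i ∈ range K, (i + 1)) * 2 = K * (K + 1) := by
        rw [h1]
        ring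
      omega
    rw [e]
    exact hK
  have hmaps : ∀ A ∈ (range (h + 1)).powerset, (fun i : Fin K => ∑ x ∈ A, x ^ (i : ℕ)) ∈ T := by
    intro A hA
    rw [hT, Fintype.mem_piFinset]
    intro i
    rw [mem_range]
    have h1 : ∑ x ∈ A, x ^ (i : ℕ) ≤ ∑ x ∈ range (h + 1), x ^ (i : ℕ) :=
      sum_le_sum_of_subset (mem_powerset.1 hA)
    have h2 : ∑ x ∈ range (h + 1), x ^ (i : ℕ) ≤ (h + 1) * (h + 1) ^ (i : ℕ) := by
      calc ∑ x ∈ range (h + 1), x ^ (i : ℕ) ≤ ∑ _x ∈ range (h + 1), (h + 1) ^ (i : ℕ) :=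
            sum_le_sum fun x hx => Nat.pow_le_pow_left (le_of_lt (mem_range.1 hx)) _
        _ = (h + 1) * (h + 1) ^ (i : ℕ) := by simp
    have h3 : (h + 1) * (h + 1) ^ (i : ℕ) < (h + 2) ^ ((i : ℕ) + 1) := by
      rw [← pow_succ']
      exact Nat.pow_lt_pow_left (by omega) (by omega)
    omega
  obtain ⟨A, hA, B, hB, hne, heq⟩ := exists_ne_map_eq_of_card_lt_of_maps_to hcard hmaps
  exact ⟨A, B, mem_powerset.1 hA, mem_powerset.1 hB, hne, fun i hi => congrFun heq ⟨i, hi⟩⟩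

/-- A small non-zero form with coefficients `-1, 0, 1`. -/
theorem exists_small {N h K : ℕ} (hN : 1 ≤ N) (hK1 : 1 ≤ K) (hK : (h + 2) ^ (K * (K + 1) / 2) < 2 ^ (h + 1)) :
    ∃ c : ℕ → ℤ, (∃ x ≤ h, c x ≠ 0) ∧ (∀ x, c x = -1 ∨ c x = 0 ∨ c x = 1) ∧
      |form N h c| ≤ (h + 1) * √N * ((h : ℝ) / N) ^ K := by
  classical
  obtain ⟨A, B, hA, hB, hne, heq⟩ := exists_subsets hK
  set c : ℕ → ℤ := fun x => (if x ∈ A then 1 else 0) - if x ∈ B then 1 else 0 with hc
  have hN' : (0 : ℝ) < N := by exact_mod_cast hN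
  have hm : ∀ i < K, mom h c i = 0 := by
    intro i hi
    have e : ∀ D : Finset ℕ, D ⊆ range (h + 1) →
        ∑ x ∈ range (h + 1), (if x ∈ D then (1 : ℤ) else 0) * (x : ℤ) ^ i = ((∑ x ∈ D, x ^ i : ℕ) : ℤ) := by
      intro D hD
      simp only [ite_mul, one_mul, zero_mul]
      rw [← sum_filter, filter_mem_eq_inter, inter_eq_right.2 hD]
      push_cast
      rfl
    rw [mom]
    simp only [hc, sub_mul]
    rw [sum_sub_distrib, e A hA, e B hB, heq i hi, sub_self]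
  have hval : ∀ x, c x = -1 ∨ c x = 0 ∨ c x = 1 := by
    intro x
    simp only [hc]
    by_cases h1 : x ∈ A <;> by_cases h2 : x ∈ B <;> simp [h1, h2]
  refine ⟨c, ?_, hval, ?_⟩
  · by_contra hcon
    push Not at hcon
    apply hne
    ext x
    by_cases hx : x ≤ h
    · have h1 := hcon x hx
      simp only [hc] at h1
      by_cases h2 : x ∈ A <;> by_cases h3 : x ∈ B <;> simp [h2, h3] at h1 ⊢
    · constructor
      · intro h1
        exact absurd (mem_range.1 (hA h1)) (by omega)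
      · intro h1
        exact absurd (mem_range.1 (hB h1)) (by omega)
  · have h1 : form N h c = √N * ∑ x ∈ range (h + 1), ((c x : ℝ) * √(1 + (x : ℝ) / N) -
        (c x : ℝ) * psm (1 / 2) K ((x : ℝ) / N)) := by
      rw [form_eq hN, sum_sub_distrib]
      have e1 : ∑ x ∈ range (h + 1), (c x : ℝ) * psm (1 / 2) K ((x : ℝ) / N) = 0 := by
        simp only [psm, mul_sum]
        rw [sum_comm]
        apply sum_eq_zero
        intro i hi
        have h2 : ((mom h c i : ℤ) : ℝ) = 0 := by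
          rw [hm i (mem_range.1 hi)]
          simp
        rw [mom] at h2
        push_cast at h2
        calc ∑ x ∈ range (h + 1), (c x : ℝ) * (bc (1 / 2) i * ((x : ℝ) / N) ^ i)
            = bc (1 / 2) i / N ^ i * ∑ x ∈ range (h + 1), (c x : ℝ) * (x : ℝ) ^ i := by
              rw [mul_sum]
              refine sum_congr rfl fun x _ => ?_
              rw [div_pow]
              ring
          _ = 0 := by rw [h2, mul_zero]
      rw [e1, sub_zero]
    have h2 : ∀ x ∈ range (h + 1), |(c x : ℝ) * √(1 + (x : ℝ) / N) -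
        (c x : ℝ) * psm (1 / 2) K ((x : ℝ) / N)| ≤ ((h : ℝ) / N) ^ K := by
      intro x hx
      have hx' : (x : ℝ) ≤ h := by
        have := mem_range.1 hx
        exact_mod_cast (by omega : x ≤ h)
      have h3 : |(c x : ℝ)| ≤ 1 := by
        rcases hval x with h | h | h <;> rw [h] <;> norm_num
      rw [← mul_sub, abs_mul]
      have h4 : |√(1 + (x : ℝ) / N) - psm (1 / 2) K ((x : ℝ) / N)| ≤ ((h : ℝ) / N) ^ K := by
        obtain ⟨k, rfl⟩ := Nat.exists_eq_succ_of_ne_zero (by omega : K ≠ 0)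
        have h5 := abs_sqrt_sub (x := (x : ℝ) / N) (by positivity) k
        have h6 : ((x : ℝ) / N) ^ (k + 1) ≤ ((h : ℝ) / N) ^ (k + 1) := by gcongr
        calc _ ≤ |bc (1 / 2) (k + 1)| * ((x : ℝ) / N) ^ (k + 1) := h5
          _ ≤ 1 * ((h : ℝ) / N) ^ (k + 1) := by
            gcongr
            exact abs_bc_le_one _
          _ = _ := one_mul _
      calc |(c x : ℝ)| * |√(1 + (x : ℝ) / N) - psm (1 / 2) K ((x : ℝ) / N)| ≤ 1 * (((h : ℝ) / N) ^ K) := by
            gcongr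
        _ = _ := one_mul _
    rw [h1, abs_mul, abs_of_nonneg (Real.sqrt_nonneg _)]
    calc √(N : ℝ) * |∑ x ∈ range (h + 1), ((c x : ℝ) * √(1 + (x : ℝ) / N) -
        (c x : ℝ) * psm (1 / 2) K ((x : ℝ) / N))|
        ≤ √N * ∑ x ∈ range (h + 1), |(c x : ℝ) * √(1 + (x : ℝ) / N) -
        (c x : ℝ) * psm (1 / 2) K ((x : ℝ) / N)| := by
          gcongr
          exact abs_sum_le_sum_abs _ _
      _ ≤ √N * ∑ _x ∈ range (h + 1), ((h : ℝ) / N) ^ K := by
          gcongr with x hx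
          exact h2 x hx
      _ = (h + 1) * √N * ((h : ℝ) / N) ^ K := by
          rw [sum_const, card_range]
          simp only [nsmul_eq_mul]
          push_cast
          ring

end Pool.Agent.Lib.H22W
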