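import Pool.Agent.Lib.H22W.Taylor

/-!
# Integer combinations of `√(N + x)`, `0 ≤ x ≤ h`

The first moment `∑ c x * x ^ j` which does not vanish has index less than the number of non-zero coefficients, and less than
`1 + √h * log (2 * ∑ |c x|)` (Chebyshev polynomials).  If `2 * (∑ |c x|) * h ^ (j + 1) ≤ N` it decides the sign of
`∑ c x * √(N + x)`.
-/

open Finset Polynomial

namespace Pool.Agent.Lib.H22W

/-- The moments. -/
def mom (h : ℕ) (c : ℕ → ℤ) (i : ℕ) : ℤ := ∑ x ∈ range (h + 1), c x * (x : ℤ) ^ i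

/-- The sum of the absolute values of the coefficients. -/
def wt (h : ℕ) (c : ℕ → ℤ) : ℕ := ∑ x ∈ range (h + 1), (c x).natAbs

/-- The set of the indices of the non-zero coefficients. -/
def supp (h : ℕ) (c : ℕ → ℤ) : Finset ℕ := (range (h + 1)).filter fun x => c x ≠ 0

/-- The linear form in the square roots. -/
noncomputable def form (N h : ℕ) (c : ℕ → ℤ) : ℝ := ∑ x ∈ range (h + 1), (c x : ℝ) * √((N : ℝ) + x)

theorem sum_eval_eq_zero {h j : ℕ} {c : ℕ → ℤ} (hm : ∀ i < j, mom h c i = 0) (q : ℝ[X])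
    (hq : q.natDegree < j) : ∑ x ∈ range (h + 1), (c x : ℝ) * q.eval (x : ℝ) = 0 := by
  have h1 : ∀ x : ℝ, q.eval x = ∑ i ∈ range j, q.coeff i * x ^ i := fun x => eval_eq_sum_range' hq x
  simp only [h1, mul_sum]
  rw [sum_comm]
  apply sum_eq_zero
  intro i hi
  have h2 : ((mom h c i : ℤ) : ℝ) = 0 := by
    rw [hm i (mem_range.1 hi)]
    simp
  rw [mom] at h2
  push_cast at h2
  calc ∑ x ∈ range (h + 1), (c x : ℝ) * (q.coeff i * (x : ℝ) ^ i)
      = q.coeff i * ∑ x ∈ range (h + 1), (c x : ℝ) * (x : ℝ) ^ i := by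
        rw [mul_sum]
        exact sum_congr rfl fun x _ => by ring
    _ = 0 := by rw [h2, mul_zero]

theorem lt_card {h j : ℕ} {c : ℕ → ℤ} (hc : (supp h c).Nonempty) (hm : ∀ i < j, mom h c i = 0) :
    j < (supp h c).card := by
  by_contra hcon
  push Not at hcon
  obtain ⟨x₀, hx₀⟩ := hc
  set q : ℝ[X] := ∏ y ∈ (supp h c).erase x₀, (X - C (y : ℝ)) with hq
  have h1 : q.natDegree < j := by
    have h2 : q.natDegree ≤ ((supp h c).erase x₀).card := by
      calc q.natDegree ≤ ∑ y ∈ (supp h c).erase x₀, (X - C (y : ℝ) : ℝ[X]).natDegree :=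
            natDegree_prod_le _ _
        _ = ∑ y ∈ (supp h c).erase x₀, 1 := sum_congr rfl fun y _ => natDegree_X_sub_C _
        _ ≤ ((supp h c).erase x₀).card := by simp
    have h3 := card_erase_of_mem hx₀
    have h4 : 0 < (supp h c).card := card_pos.2 ⟨x₀, hx₀⟩
    omega
  have h2 := sum_eval_eq_zero hm q h1
  have h3 : ∑ x ∈ range (h + 1), (c x : ℝ) * q.eval (x : ℝ) = (c x₀ : ℝ) * q.eval (x₀ : ℝ) := by
    apply sum_eq_single_of_mem x₀ (mem_filter.1 hx₀).1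
    intro x hx hne
    by_cases h0 : c x = 0
    · simp [h0]
    · have h4 : x ∈ (supp h c).erase x₀ := mem_erase.2 ⟨hne, mem_filter.2 ⟨hx, h0⟩⟩
      have h5 : q.eval (x : ℝ) = 0 := by
        rw [hq, eval_prod]
        exact prod_eq_zero h4 (by simp)
      rw [h5, mul_zero]
  rw [h3] at h2
  rcases mul_eq_zero.1 h2 with h4 | h4
  · exact (mem_filter.1 hx₀).2 (by exact_mod_cast h4)
  · rw [hq, eval_prod, prod_eq_zero_iff] at h4
    obtain ⟨y, hy, h5⟩ := h4
    simp only [eval_sub, eval_X, eval_C, sub_eq_zero, Nat.cast_inj] at h5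
    exact (mem_erase.1 hy).1 h5.symm

theorem one_le_wt {h : ℕ} {c : ℕ → ℤ} (hc : (supp h c).Nonempty) : 1 ≤ wt h c := by
  obtain ⟨x₀, hx₀⟩ := hc
  obtain ⟨h1, h2⟩ := mem_filter.1 hx₀
  have h3 : (c x₀).natAbs ≤ wt h c :=
    single_le_sum (f := fun x => (c x).natAbs) (fun _ _ => Nat.zero_le _) h1
  have h4 : 0 < (c x₀).natAbs := Int.natAbs_pos.2 h2
  omega

theorem wt_cast (h : ℕ) (c : ℕ → ℤ) : (wt h c : ℝ) = ∑ x ∈ range (h + 1), |(c x : ℝ)| := by
  rw [wt]
  push_cast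
  exact sum_congr rfl fun x _ => by
    rw [Nat.cast_natAbs]
    simp

theorem abs_eval_T_le {k : ℕ} {y : ℝ} (h1 : -1 ≤ y) (h2 : y ≤ 1) : |(Chebyshev.T ℝ (k : ℤ)).eval y| ≤ 1 := by
  have h3 := Chebyshev.T_real_cos (Real.arccos y) (k : ℤ)
  rw [Real.cos_arccos h1 h2] at h3
  rw [h3]
  exact Real.abs_cos_le_one _

theorem lt_cheb {h j : ℕ} {c : ℕ → ℤ} (hh : 1 ≤ h) (hc : (supp h c).Nonempty)
    (hm : ∀ i < j, mom h c i = 0) : (j : ℝ) < 1 + √h * Real.log (2 * wt h c) := by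
  have hM : (1 : ℝ) ≤ wt h c := by exact_mod_cast one_le_wt hc
  have hlog : 0 < Real.log (2 * wt h c) := Real.log_pos (by linarith)
  have hh' : (1 : ℝ) ≤ h := by exact_mod_cast hh
  have hs : 0 < √(h : ℝ) := Real.sqrt_pos.2 (by linarith)
  rcases Nat.eq_zero_or_pos j with hj | hj
  · subst hj
    push_cast
    positivity
  obtain ⟨k, rfl⟩ := Nat.exists_eq_succ_of_ne_zero hj.ne'
  set x₀ := (supp h c).min' hc with hx₀
  have hx₀m : x₀ ∈ supp h c := min'_mem _ _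
  set t : ℝ := 1 / √h with ht
  have ht2 : t ^ 2 = 1 / h := by
    rw [ht, div_pow, one_pow, Real.sq_sqrt (by linarith)]
  have hcosh : Real.cosh t ≤ 1 + 2 / h := by
    have h1 := Real.cosh_le_exp_half_sq t
    have h2 : |t ^ 2 / 2| ≤ 1 := by
      rw [ht2, abs_of_nonneg (by positivity)]
      have : (1 : ℝ) / h ≤ 1 := by
        rw [div_le_one (by linarith)]
        exact hh'
      linarith
    have h3 := Real.abs_exp_sub_one_sub_id_le h2
    have h4 := (abs_le.1 h3).2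
    have h5 : (t ^ 2 / 2) ^ 2 ≤ t ^ 2 / 2 := by
      have h6 : 0 ≤ t ^ 2 / 2 := by positivity
      have h7 : t ^ 2 / 2 ≤ 1 := (le_abs_self _).trans h2
      nlinarith
    have h8 : (2 : ℝ) / h = 2 * (1 / h) := by ring
    rw [h8, ← ht2]
    have : 0 ≤ t ^ 2 := by positivity
    linarith
  set q : ℝ[X] := (Chebyshev.T ℝ (k : ℤ)).comp (C (Real.cosh t) - C (2 / (h : ℝ)) * (X - C (x₀ : ℝ)))
    with hq
  have hdeg : q.natDegree < k.succ := by
    have h1 : (C (Real.cosh t) - C (2 / (h : ℝ)) * (X - C (x₀ : ℝ)) : ℝ[X]).natDegree ≤ 1 := by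
      compute_degree
    have h2 : q.natDegree ≤ k * 1 := by
      refine natDegree_comp_le.trans ?_
      rw [Chebyshev.natDegree_T]
      simpa using Nat.mul_le_mul_left k h1
    omega
  have h2 := sum_eval_eq_zero hm q hdeg
  have hev : ∀ x : ℝ, q.eval x = (Chebyshev.T ℝ (k : ℤ)).eval (Real.cosh t - 2 / h * (x - x₀)) := by
    intro x
    simp [hq]
  have h3 : q.eval (x₀ : ℝ) = Real.cosh (k * t) := by
    rw [hev, sub_self, mul_zero, sub_zero, Chebyshev.T_real_cosh]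
    push_cast
    rfl
  obtain ⟨hxr, hx0⟩ := mem_filter.1 hx₀m
  rw [← add_sum_erase _ _ hxr, h3] at h2
  have h4 : ∀ x ∈ (range (h + 1)).erase x₀, |(c x : ℝ) * q.eval (x : ℝ)| ≤ |(c x : ℝ)| := by
    intro x hx
    obtain ⟨hne, hxr'⟩ := mem_erase.1 hx
    by_cases h0 : c x = 0
    · simp [h0]
    · have h5 : x₀ < x := lt_of_le_of_ne (min'_le _ _ (mem_filter.2 ⟨hxr', h0⟩)) (Ne.symm hne)
      have h6 : x ≤ h := by
        have := mem_range.1 hxr'
        omega
      have h7 : (1 : ℝ) ≤ (x : ℝ) - x₀ := by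
        have : (x₀ : ℝ) + 1 ≤ x := by exact_mod_cast h5
        linarith
      have h8 : (x : ℝ) - x₀ ≤ h := by
        have h9 : (x : ℝ) ≤ h := by exact_mod_cast h6
        have h10 : (0 : ℝ) ≤ x₀ := by positivity
        linarith
      have h9 : 2 / (h : ℝ) ≤ 2 / h * ((x : ℝ) - x₀) := le_mul_of_one_le_right (by positivity) h7
      have h10 : 2 / (h : ℝ) * ((x : ℝ) - x₀) ≤ 2 := by
        calc 2 / (h : ℝ) * ((x : ℝ) - x₀) ≤ 2 / h * h := by gcongr
          _ = 2 := by field_simp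
      have h11 : 1 ≤ Real.cosh t := Real.one_le_cosh t
      rw [abs_mul, hev]
      have h12 := abs_eval_T_le (k := k) (y := Real.cosh t - 2 / h * ((x : ℝ) - x₀)) (by linarith)
        (by linarith)
      calc |(c x : ℝ)| * |(Chebyshev.T ℝ (k : ℤ)).eval (Real.cosh t - 2 / h * ((x : ℝ) - x₀))|
          ≤ |(c x : ℝ)| * 1 := by gcongr
        _ = |(c x : ℝ)| := mul_one _
  have h5 : |(c x₀ : ℝ)| * Real.cosh (k * t) ≤ ∑ x ∈ (range (h + 1)).erase x₀, |(c x : ℝ)| := by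
    have e1 : (c x₀ : ℝ) * Real.cosh (k * t) =
        -∑ x ∈ (range (h + 1)).erase x₀, (c x : ℝ) * q.eval (x : ℝ) := by linarith
    calc |(c x₀ : ℝ)| * Real.cosh (k * t) = |(c x₀ : ℝ) * Real.cosh (k * t)| := by
          rw [abs_mul, abs_of_pos (Real.cosh_pos _)]
      _ = |∑ x ∈ (range (h + 1)).erase x₀, (c x : ℝ) * q.eval (x : ℝ)| := by rw [e1, abs_neg]
      _ ≤ ∑ x ∈ (range (h + 1)).erase x₀, |(c x : ℝ) * q.eval (x : ℝ)| := abs_sum_le_sum_abs _ _
      _ ≤ _ := sum_le_sum h4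
  have h6 : (1 : ℝ) ≤ |(c x₀ : ℝ)| := by
    have : (1 : ℤ) ≤ |c x₀| := Int.one_le_abs hx0
    exact_mod_cast this
  have h7 : |(c x₀ : ℝ)| + ∑ x ∈ (range (h + 1)).erase x₀, |(c x : ℝ)| = wt h c := by
    rw [wt_cast, add_sum_erase _ (fun x => |(c x : ℝ)|) hxr]
  have h8 : Real.cosh (k * t) < wt h c := by
    have h9 : Real.cosh (k * t) ≤ |(c x₀ : ℝ)| * Real.cosh (k * t) :=
      le_mul_of_one_le_left (Real.cosh_pos _).le h6
    linarith
  have h9 : Real.exp (k * t) < 2 * wt h c := by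
    rw [Real.cosh_eq] at h8
    have := Real.exp_pos (-(k * t))
    linarith
  have h10 : k * t < Real.log (2 * wt h c) := (Real.lt_log_iff_exp_lt (by linarith)).2 h9
  have h11 : (k : ℝ) = √h * (k * t) := by
    rw [ht]
    field_simp
  push_cast
  have h12 : √(h : ℝ) * (k * t) < √h * Real.log (2 * wt h c) := mul_lt_mul_of_pos_left h10 hs
  rw [← h11] at h12
  linarith

theorem exists_first {h : ℕ} {c : ℕ → ℤ} (hc : (supp h c).Nonempty) :
    ∃ j, (∀ i < j, mom h c i = 0) ∧ mom h c j ≠ 0 := by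
  classical
  have h1 : ∃ j, mom h c j ≠ 0 := by
    by_contra hcon
    push Not at hcon
    exact absurd (lt_card hc (j := (supp h c).card) fun i _ => hcon i) (lt_irrefl _)
  refine ⟨Nat.find h1, fun i hi => ?_, Nat.find_spec h1⟩
  have := Nat.find_min h1 hi
  push Not at this
  exact this

theorem form_eq {N h : ℕ} (hN : 1 ≤ N) (c : ℕ → ℤ) :
    form N h c = √N * ∑ x ∈ range (h + 1), (c x : ℝ) * √(1 + (x : ℝ) / N) := by
  have hN' : (0 : ℝ) < N := by exact_mod_cast hN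
  rw [form, mul_sum]
  refine sum_congr rfl fun x _ => ?_
  have e : (N : ℝ) + x = N * (1 + (x : ℝ) / N) := by
    field_simp
  rw [e, Real.sqrt_mul hN'.le]
  ring

theorem main_bound {N h j : ℕ} {c : ℕ → ℤ} (hN : 1 ≤ N) (hm : ∀ i < j, mom h c i = 0)
    (hbig : 2 * wt h c * h ^ (j + 1) ≤ N) :
    |∑ x ∈ range (h + 1), (c x : ℝ) * √(1 + (x : ℝ) / N) - bc (1 / 2) j * mom h c j / N ^ j| ≤
      |bc (1 / 2) j| / (2 * N ^ j) := by
  have hN' : (0 : ℝ) < N := by exact_mod_cast hN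
  have h1 : ∑ x ∈ range (h + 1), (c x : ℝ) * psm (1 / 2) (j + 1) ((x : ℝ) / N) =
      bc (1 / 2) j * mom h c j / N ^ j := by
    have e1 : ∀ i, ∑ x ∈ range (h + 1), (c x : ℝ) * (bc (1 / 2) i * ((x : ℝ) / N) ^ i) =
        bc (1 / 2) i * mom h c i / N ^ i := by
      intro i
      rw [mom]
      push_cast
      rw [mul_sum, sum_div]
      refine sum_congr rfl fun x _ => ?_
      rw [div_pow]
      ring
    simp only [psm, mul_sum]
    rw [sum_comm, sum_range_succ, e1 j]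
    have e2 : ∑ i ∈ range j, ∑ x ∈ range (h + 1), (c x : ℝ) * (bc (1 / 2) i * ((x : ℝ) / N) ^ i) = 0 := by
      apply sum_eq_zero
      intro i hi
      rw [e1 i, hm i (mem_range.1 hi)]
      simp
    rw [e2, zero_add]
  rw [← h1, ← sum_sub_distrib]
  have h2 : ∀ x ∈ range (h + 1), |(c x : ℝ) * √(1 + (x : ℝ) / N) - (c x : ℝ) * psm (1 / 2) (j + 1) ((x : ℝ) / N)| ≤
      |(c x : ℝ)| * (|bc (1 / 2) j| * ((h : ℝ) / N) ^ (j + 1)) := by
    intro x hx
    have hx' : (x : ℝ) ≤ h := by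
      have := mem_range.1 hx
      exact_mod_cast (by omega : x ≤ h)
    rw [← mul_sub, abs_mul]
    have h3 := abs_sqrt_sub (x := (x : ℝ) / N) (by positivity) j
    have h4 := abs_bc_succ_le j
    have h5 : ((x : ℝ) / N) ^ (j + 1) ≤ ((h : ℝ) / N) ^ (j + 1) := by gcongr
    have h6 : |bc (1 / 2) (j + 1)| * ((x : ℝ) / N) ^ (j + 1) ≤ |bc (1 / 2) j| * ((h : ℝ) / N) ^ (j + 1) := by
      gcongr
    exact mul_le_mul_of_nonneg_left (h3.trans h6) (abs_nonneg _)
  calc |∑ x ∈ range (h + 1), ((c x : ℝ) * √(1 + (x : ℝ) / N) - (c x : ℝ) * psm (1 / 2) (j + 1) ((x : ℝ) / N))|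
      ≤ ∑ x ∈ range (h + 1), |(c x : ℝ) * √(1 + (x : ℝ) / N) - (c x : ℝ) * psm (1 / 2) (j + 1) ((x : ℝ) / N)| :=
        abs_sum_le_sum_abs _ _
    _ ≤ ∑ x ∈ range (h + 1), |(c x : ℝ)| * (|bc (1 / 2) j| * ((h : ℝ) / N) ^ (j + 1)) := sum_le_sum h2
    _ = wt h c * (|bc (1 / 2) j| * ((h : ℝ) / N) ^ (j + 1)) := by rw [← sum_mul, wt_cast]
    _ = |bc (1 / 2) j| * (2 * wt h c * (h : ℝ) ^ (j + 1)) / (2 * (N ^ j * N)) := by
        rw [div_pow, pow_succ (N : ℝ) j]
        field_simp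
    _ ≤ |bc (1 / 2) j| * N / (2 * (N ^ j * N)) := by
        have : (2 * (wt h c : ℝ) * (h : ℝ) ^ (j + 1)) ≤ N := by exact_mod_cast hbig
        gcongr
    _ = |bc (1 / 2) j| / (2 * N ^ j) := by
        field_simp

/-- The sign and the size of the form. -/
theorem form_bound {N h j : ℕ} {c : ℕ → ℤ} (hN : 1 ≤ N) (hm : ∀ i < j, mom h c i = 0) (hj : mom h c j ≠ 0)
    (hbig : 2 * wt h c * h ^ (j + 1) ≤ N) :
    √N / (2 * (4 * N) ^ j) ≤ |form N h c| ∧ (0 < form N h c ↔ 0 < sg j * mom h c j) := by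
  have hN' : (0 : ℝ) < N := by exact_mod_cast hN
  have hs : 0 < √(N : ℝ) := Real.sqrt_pos.2 hN'
  set F := ∑ x ∈ range (h + 1), (c x : ℝ) * √(1 + (x : ℝ) / N) with hF
  have h1 := main_bound hN hm hbig
  rw [← hF] at h1
  have hf : form N h c = √N * F := form_eq hN c
  set b := bc (1 / 2) j with hb
  have h2 : (1 : ℝ) ≤ |(mom h c j : ℝ)| := by
    have : (1 : ℤ) ≤ |mom h c j| := Int.one_le_abs hj
    exact_mod_cast this
  have h3 : (1 / 4 : ℝ) ^ j ≤ |b| := le_abs_bc j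
  have hb0 : 0 < |b| := lt_of_lt_of_le (by positivity) h3
  have hNj : (0 : ℝ) < N ^ j := by positivity
  have e1 : |b * mom h c j / N ^ j| = |b| * |(mom h c j : ℝ)| / N ^ j := by
    rw [abs_div, abs_mul, abs_of_pos hNj]
  have h4 : |b| / N ^ j ≤ |b * mom h c j / N ^ j| := by
    rw [e1]
    gcongr
    exact le_mul_of_one_le_right (abs_nonneg _) h2
  have e2 : |b| / (2 * N ^ j) = |b| / N ^ j / 2 := by
    field_simp
  rw [e2] at h1
  have h5 : 0 < |b| / (N : ℝ) ^ j := by positivity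
  constructor
  · have h6 : |b * mom h c j / N ^ j| - |F| ≤ |F - b * mom h c j / N ^ j| := by
      rw [abs_sub_comm F]
      exact abs_sub_abs_le_abs_sub _ _
    have h7 : |b| / N ^ j / 2 ≤ |F| := by linarith
    rw [hf, abs_mul, abs_of_pos hs]
    have h8 : √(N : ℝ) / (2 * (4 * N) ^ j) = √N * ((1 / 4 : ℝ) ^ j / N ^ j / 2) := by
      rw [mul_pow, div_pow, one_pow]
      field_simp
    rw [h8]
    have h9 : (1 / 4 : ℝ) ^ j / N ^ j / 2 ≤ |b| / N ^ j / 2 := by gcongr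
    exact mul_le_mul_of_nonneg_left (h9.trans h7) hs.le
  · have h6 := abs_le.1 h1
    have hsg := sg_mul_bc_pos j
    rw [← hb] at hsg
    have hiff : (0 < sg j * mom h c j) ↔ 0 < b * mom h c j := by
      have e3 : ((sg j * mom h c j : ℤ) : ℝ) * (b * mom h c j) = ((sg j : ℝ) * b) * (mom h c j : ℝ) ^ 2 := by
        push_cast
        ring
      have h7 : 0 < ((sg j * mom h c j : ℤ) : ℝ) * (b * mom h c j) := by
        rw [e3]
        have : (mom h c j : ℝ) ≠ 0 := by exact_mod_cast hj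
        positivity
      constructor
      · intro h8
        have h9 : 0 < ((sg j * mom h c j : ℤ) : ℝ) := by exact_mod_cast h8
        exact (pos_iff_pos_of_mul_pos h7).1 h9
      · intro h8
        have h9 := (pos_iff_pos_of_mul_pos h7).2 h8
        exact_mod_cast h9
    rw [hiff, hf]
    constructor
    · intro h7
      have h8 : 0 < F := (pos_iff_pos_of_mul_pos h7).1 hs
      by_contra h9
      push Not at h9
      have h10 : b * mom h c j / N ^ j ≤ 0 := div_nonpos_of_nonpos_of_nonneg h9 hNj.le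
      rw [abs_of_nonpos h10] at h4
      linarith [h6.2]
    · intro h7
      have h10 : 0 < b * mom h c j / N ^ j := div_pos h7 hNj
      rw [abs_of_pos h10] at h4
      have h8 : 0 < F := by linarith [h6.1]
      positivity

end Pool.Agent.Lib.H22W
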