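import Pool.Agent.Lib.H22W.Lists
import Pool.Agent.Lib.PolyTime.More
import Pool.Agent.Lib.PolyTime.Final

/-!
# A polynomial time procedure which compares the power sums of the differences to the minimum
-/

open Pool.Agent.PolyTime

namespace Pool.Agent.Lib.H22W

section

variable {α : Type*} [Enc α]

theorem size_sum_le (l : List ℕ) : l.sum.size ≤ sz l := by
  induction l with
  | nil => simp
  | cons x l ih =>
    rw [List.sum_cons, sz_cons]
    have h1 := size_add_le x l.sum
    have h2 := size_lt_sz x
    omega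

theorem PT_sum {l : α → List ℕ} (hl : PT l) : PT fun a => (l a).sum := by
  have key : ∀ (l : List ℕ) (s : ℕ), l.foldl (fun s b : ℕ => s + b) s = s + l.sum := by
    intro l
    induction l with
    | nil => simp
    | cons b l ih => intro s; simp [ih]; ring
  have h1 := PT.foldl (g := fun (_ : α) (s b : ℕ) => s + b) (s := fun _ => 0) (l := l)
    (by fun_prop) (by fun_prop) hl (B := fun a => 4 * sz (l a) + 1)
    (((PBd.const 4).mul (PT.bdd hl)).add (PBd.const 1)) (by
      intro a l1 l2 h
      rw [key, zero_add]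
      have h2 := sz_nat_le l1.sum
      have h3 := size_sum_le l1
      have h4 : sz l1 ≤ sz (l a) := by
        have h5 := sz_append l1 l2
        have h6 := one_le_sz l2
        rw [h]
        omega
      omega)
  refine h1.congr fun a => ?_
  rw [key, zero_add]

theorem size_pow_le (x i : ℕ) : (x ^ i).size ≤ i * x.size + 1 := by
  induction i with
  | zero => simp
  | succ i ih =>
    rw [pow_succ, add_mul, one_mul]
    have := size_mul_le (x ^ i) x
    omega

theorem PT_pow {f : α → ℕ} {t : α → List ℕ} (hf : PT f) (ht : PT t) :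
    PT fun a => f a ^ (t a).length := by
  have key : ∀ (a : α) (l : List ℕ) (s : ℕ),
      l.foldl (fun (s : ℕ) (_ : ℕ) => s * f a) s = s * f a ^ l.length := by
    intro a l
    induction l with
    | nil => simp
    | cons b l ih => intro s; simp [ih, pow_succ]; ring
  have h1 := PT.foldl (g := fun (a : α) (s : ℕ) (_ : ℕ) => s * f a) (s := fun _ => 1) (l := t)
    (PT.mul (by fun_prop) (hf.comp (by fun_prop))) (by fun_prop) ht
    (B := fun a => 4 * (sz (t a) * sz (f a) + 1) + 1)
    (((PBd.const 4).mul (((PT.bdd ht).mul (PT.bdd hf)).add (PBd.const 1))).add (PBd.const 1)) (by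
      intro a l1 l2 h
      rw [key, one_mul]
      have h2 := sz_nat_le (f a ^ l1.length)
      have h3 := size_pow_le (f a) l1.length
      have h4 : l1.length ≤ sz (t a) := by
        have h5 := length_lt_sz (t a)
        rw [h, List.length_append] at h5
        rw [h]
        omega
      have h6 := (size_lt_sz (f a)).le
      have h7 : l1.length * (f a).size ≤ sz (t a) * sz (f a) := Nat.mul_le_mul h4 h6
      omega)
  refine h1.congr fun a => ?_
  rw [key, one_mul]

/-- The sum of the powers `(m - N) ^ j`. -/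
def offn (N : ℕ) (l : List ℕ) (j : ℕ) : ℕ := (l.map fun m => (m - N) ^ j).sum

theorem PT_offn {N : α → ℕ} {l t : α → List ℕ} (hN : PT N) (hl : PT l) (ht : PT t) :
    PT fun a => offn (N a) (l a) (t a).length := by
  have h1 : PT fun q : α × ℕ => (q.2 - N q.1) ^ (t q.1).length :=
    PT_pow (f := fun q : α × ℕ => q.2 - N q.1) (t := fun q : α × ℕ => t q.1)
      (PT.sub (by fun_prop) (hN.comp (by fun_prop))) (ht.comp (by fun_prop))
  exact PT_sum (PT.map (f := fun (a : α) (m : ℕ) => (m - N a) ^ (t a).length) h1 hl)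

/-- The minimum of a list. -/
def mn (l : List ℕ) : ℕ := l.foldl min (l.headD 0)

theorem foldl_min_le (l : List ℕ) : ∀ s : ℕ, l.foldl min s ≤ s := by
  induction l with
  | nil => intro s; simp
  | cons b l ih => intro s; exact (ih _).trans (min_le_left _ _)

theorem PT_mn {l : α → List ℕ} (hl : PT l) : PT fun a => mn (l a) := by
  have hd : PT fun a => (l a).headD 0 := PT.headD hl (PT.const 0)
  exact PT.foldl (g := fun (_ : α) (s b : ℕ) => min s b) (s := fun a => (l a).headD 0) (l := l)
    (by fun_prop) hd hl (B := fun a => 4 * sz ((l a).headD 0))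
    ((PBd.const 4).mul (PT.bdd hd)) (by
      intro a l1 l2 _
      exact sz_nat_le_of_le (foldl_min_le l1 _))

end

theorem foldl_min_mem (l : List ℕ) : ∀ s : ℕ, l.foldl min s = s ∨ l.foldl min s ∈ l := by
  induction l with
  | nil => intro s; simp
  | cons b l ih =>
    intro s
    rw [List.foldl_cons]
    rcases ih (min s b) with h | h
    · rcases min_choice s b with h2 | h2
      · left
        rw [h, h2]
      · right
        rw [h, h2]
        exact List.mem_cons_self
    · right
      exact List.mem_cons_of_mem _ h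

theorem foldl_min_le_mem (l : List ℕ) : ∀ s : ℕ, ∀ m ∈ l, l.foldl min s ≤ m := by
  induction l with
  | nil => simp
  | cons b l ih =>
    intro s m hm
    rw [List.foldl_cons]
    rcases List.mem_cons.1 hm with h | h
    · rw [h]
      exact (foldl_min_le l _).trans (min_le_right _ _)
    · exact ih _ m h

theorem mn_le {l : List ℕ} {m : ℕ} (hm : m ∈ l) : mn l ≤ m := foldl_min_le_mem l _ m hm

theorem mn_mem {l : List ℕ} (hl : l ≠ []) : mn l ∈ l := by
  rcases foldl_min_mem l (l.headD 0) with h | h
  · rw [mn, h]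
    cases l with
    | nil => exact absurd rfl hl
    | cons b l => simp
  · exact h

/-- The sign at the index `j`. -/
def posj (j : ℕ) : Bool := decide (j = 0 ∨ j % 2 = 1)

/-- The answer at the index `j`. -/
def ansj (a : List ℕ × List ℕ) (j : ℕ) : Bool :=
  bif posj j then decide (offn (mn (a.1 ++ a.2)) a.1 j < offn (mn (a.1 ++ a.2)) a.2 j)
  else decide (offn (mn (a.1 ++ a.2)) a.2 j < offn (mn (a.1 ++ a.2)) a.1 j)

/-- One step of the procedure. -/
def stp (a : List ℕ × List ℕ) (s : List ℕ × Bool × Bool) (b : ℕ) : List ℕ × Bool × Bool :=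
  (b :: s.1, bif s.2.1 then s.2 else
    bif decide (offn (mn (a.1 ++ a.2)) a.1 s.1.length = offn (mn (a.1 ++ a.2)) a.2 s.1.length) then
      (false, true) else (true, ansj a s.1.length))

/-- The procedure: find the first index `j` less than the number of entries at which the sums of the `j`-th powers of the
differences to the least entry differ, and compare these sums. -/
def sqrtLE (a : List ℕ × List ℕ) : Bool := ((a.1 ++ a.2).foldl (stp a) ([], false, true)).2.2

theorem PT_stp : PT fun p : (List ℕ × List ℕ) × (List ℕ × Bool × Bool) × ℕ => stp p.1 p.2.1 p.2.2 := by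
  have hN : PT fun p : (List ℕ × List ℕ) × (List ℕ × Bool × Bool) × ℕ => mn (p.1.1 ++ p.1.2) :=
    PT_mn (by fun_prop)
  have h1 : PT fun p : (List ℕ × List ℕ) × (List ℕ × Bool × Bool) × ℕ =>
      offn (mn (p.1.1 ++ p.1.2)) p.1.1 p.2.1.1.length := PT_offn hN (by fun_prop) (by fun_prop)
  have h2 : PT fun p : (List ℕ × List ℕ) × (List ℕ × Bool × Bool) × ℕ =>
      offn (mn (p.1.1 ++ p.1.2)) p.1.2 p.2.1.1.length := PT_offn hN (by fun_prop) (by fun_prop)
  have h3 : PT fun p : (List ℕ × List ℕ) × (List ℕ × Bool × Bool) × ℕ => posj p.2.1.1.length := by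
    unfold posj
    refine PT.decide_or ?_ ?_
    · exact PT.decide_eq (by fun_prop) (by fun_prop)
    · exact PT.decide_eq (by fun_prop) (by fun_prop)
  have h4 : PT fun p : (List ℕ × List ℕ) × (List ℕ × Bool × Bool) × ℕ => ansj p.1 p.2.1.1.length := by
    unfold ansj
    exact PT.bif h3 (PT.decide_lt h1 h2) (PT.decide_lt h2 h1)
  unfold stp
  refine PT.pair (by fun_prop) ?_
  exact PT.bif (by fun_prop) (by fun_prop) (PT.bif (PT.decide_eq h1 h2) (by fun_prop)
    (PT.pair (by fun_prop) h4))

theorem foldl_stp_fst (a : List ℕ × List ℕ) (l : List ℕ) : ∀ s, (l.foldl (stp a) s).1 = l.reverse ++ s.1 := by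
  induction l with
  | nil => intro s; simp
  | cons b l ih => intro s; rw [List.foldl_cons, ih]; simp [stp]

/-- The procedure runs in polynomial time. -/
theorem PT_sqrtLE : PT sqrtLE := by
  have hl : PT fun a : List ℕ × List ℕ => a.1 ++ a.2 := by fun_prop
  have h1 := PT.foldl (g := stp) (s := fun _ => ([], false, true))
    (l := fun a : List ℕ × List ℕ => a.1 ++ a.2) PT_stp (by fun_prop) hl
    (B := fun a => sz (a.1 ++ a.2) + 10) ((PT.bdd hl).add (PBd.const 10)) (by
      intro a l1 l2 h
      have h2 := foldl_stp_fst a l1 ([], false, true)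
      rw [sz_prod, sz_prod, h2, List.append_nil, sz_reverse]
      have h3 : sz l1 ≤ sz (a.1 ++ a.2) := by
        have h5 := sz_append l1 l2
        have h6 := one_le_sz l2
        rw [h]
        omega
      have h4 := sz_bool_le (l1.foldl (stp a) ([], false, true)).2.1
      have h5 := sz_bool_le (l1.foldl (stp a) ([], false, true)).2.2
      omega)
  unfold sqrtLE
  exact PT.snd (PT.snd h1)

theorem foldl_done (a : List ℕ × List ℕ) (l : List ℕ) : ∀ s : List ℕ × Bool × Bool, s.2.1 = true →
    (l.foldl (stp a) s).2 = s.2 := by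
  induction l with
  | nil => intro s _; rfl
  | cons b l ih =>
    intro s hs
    have h1 : (stp a s b).2 = s.2 := by simp [stp, hs]
    rw [List.foldl_cons, ih _ (by rw [h1, hs]), h1]

theorem foldl_equal (a : List ℕ × List ℕ) (l : List ℕ) : ∀ s : List ℕ × Bool × Bool, s.2 = (false, true) →
    (∀ j, s.1.length ≤ j → j < s.1.length + l.length →
      offn (mn (a.1 ++ a.2)) a.1 j = offn (mn (a.1 ++ a.2)) a.2 j) →
    (l.foldl (stp a) s).2 = (false, true) := by
  induction l with
  | nil => intro s hs _; exact hs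
  | cons b l ih =>
    intro s hs h
    have h0 := h s.1.length le_rfl (by simp)
    have h1 : (stp a s b).2 = (false, true) := by simp [stp, hs, h0]
    have h2 : (stp a s b).1.length = s.1.length + 1 := by simp [stp]
    rw [List.foldl_cons]
    apply ih _ h1
    intro j hj1 hj2
    rw [h2] at hj1 hj2
    exact h j (by omega) (by rw [List.length_cons]; omega)

theorem foldl_first (a : List ℕ × List ℕ) (l : List ℕ) (j₀ : ℕ)
    (hj₀ : offn (mn (a.1 ++ a.2)) a.1 j₀ ≠ offn (mn (a.1 ++ a.2)) a.2 j₀) :
    ∀ s : List ℕ × Bool × Bool, s.2 = (false, true) → s.1.length ≤ j₀ → j₀ < s.1.length + l.length →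
    (∀ j, s.1.length ≤ j → j < j₀ → offn (mn (a.1 ++ a.2)) a.1 j = offn (mn (a.1 ++ a.2)) a.2 j) →
    (l.foldl (stp a) s).2 = (true, ansj a j₀) := by
  induction l with
  | nil =>
    intro s _ h1 h2 _
    simp at h2
    omega
  | cons b l ih =>
    intro s hs h1 h2 h
    have h3 : (stp a s b).1.length = s.1.length + 1 := by simp [stp]
    rw [List.foldl_cons]
    rcases Nat.lt_or_ge s.1.length j₀ with h4 | h4
    · have h0 := h s.1.length le_rfl h4
      have h5 : (stp a s b).2 = (false, true) := by simp [stp, hs, h0]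
      apply ih _ h5
      · omega
      · rw [h3]
        rw [List.length_cons] at h2
        omega
      · intro j hj1 hj2
        exact h j (by omega) hj2
    · have h5 : s.1.length = j₀ := le_antisymm h1 h4
      have h6 : (stp a s b).2 = (true, ansj a j₀) := by
        simp [stp, hs, h5, hj₀]
      rw [foldl_done _ _ _ (by rw [h6]), h6]

theorem sqrtLE_equal {a : List ℕ × List ℕ}
    (h : ∀ j, offn (mn (a.1 ++ a.2)) a.1 j = offn (mn (a.1 ++ a.2)) a.2 j) : sqrtLE a = true := by
  rw [sqrtLE, foldl_equal a (a.1 ++ a.2) ([], false, true) rfl fun j _ _ => h j]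

theorem sqrtLE_first {a : List ℕ × List ℕ} {j₀ : ℕ} (hlt : j₀ < a.1.length + a.2.length)
    (hj₀ : offn (mn (a.1 ++ a.2)) a.1 j₀ ≠ offn (mn (a.1 ++ a.2)) a.2 j₀)
    (h : ∀ j < j₀, offn (mn (a.1 ++ a.2)) a.1 j = offn (mn (a.1 ++ a.2)) a.2 j) :
    sqrtLE a = ansj a j₀ := by
  rw [sqrtLE, foldl_first a (a.1 ++ a.2) j₀ hj₀ ([], false, true) rfl (by simp)
    (by rw [List.length_append]; simpa using hlt) fun j _ hj => h j hj]

end Pool.Agent.Lib.H22W
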