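import Mathlib

/-!
# The alternating Taylor series of the square root

`bc α i` is the binomial coefficient `α` over `i`.  For `α < 0` the Taylor polynomials of `(1 + x) ^ α` at `x ≥ 0`
are alternately too large and too small, and the error is at most the first omitted term.  The same for `√(1 + x)`.
-/

open Finset

namespace Pool.Agent.Lib.H22W

/-- The binomial coefficient `α` over `i`. -/
noncomputable def bc (α : ℝ) (i : ℕ) : ℝ := ∏ l ∈ range i, (α - l) / (l + 1)

theorem bc_zero (α : ℝ) : bc α 0 = 1 := by simp [bc]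

theorem bc_succ (α : ℝ) (i : ℕ) : bc α (i + 1) = bc α i * ((α - i) / (i + 1)) := by
  rw [bc, prod_range_succ, bc]

theorem bc_key (α : ℝ) (i : ℕ) : ((i : ℝ) + 1) * bc α (i + 1) = α * bc (α - 1) i := by
  induction i with
  | zero => simp [bc]
  | succ i ih =>
    have h1 : ((i : ℝ) + 1) ≠ 0 := by positivity
    have h2 : ((i : ℝ) + 1 + 1) ≠ 0 := by positivity
    have e1 : (((i + 1 : ℕ) : ℝ) + 1) * bc α (i + 1 + 1) = bc α (i + 1) * (α - (i + 1)) := by
      rw [bc_succ]
      push_cast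
      field_simp
    have e2 : α * bc (α - 1) (i + 1) = (α * bc (α - 1) i) * ((α - 1 - i) / (i + 1)) := by
      rw [bc_succ]
      ring
    rw [e1, e2, ← ih]
    field_simp
    ring

/-- The partial sum of the binomial series. -/
noncomputable def psm (α : ℝ) (j : ℕ) (x : ℝ) : ℝ := ∑ i ∈ range j, bc α i * x ^ i

theorem psm_zero_right (α : ℝ) (j : ℕ) : psm α (j + 1) 0 = 1 := by
  rw [psm, sum_range_succ']
  simp [bc_zero]

theorem hasDerivAt_psm (α : ℝ) (j : ℕ) (x : ℝ) :
    HasDerivAt (psm α (j + 1)) (α * psm (α - 1) j x) x := by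
  have h1 : HasDerivAt (fun y => ∑ i ∈ range (j + 1), bc α i * y ^ i)
      (∑ i ∈ range (j + 1), bc α i * ((i : ℝ) * x ^ (i - 1))) x := by
    apply HasDerivAt.fun_sum
    intro i _
    exact (hasDerivAt_pow i x).const_mul _
  have h2 : ∑ i ∈ range (j + 1), bc α i * ((i : ℝ) * x ^ (i - 1)) = α * psm (α - 1) j x := by
    rw [sum_range_succ', psm, mul_sum]
    simp only [Nat.cast_zero, zero_mul, mul_zero, add_zero, Nat.add_sub_cancel]
    refine sum_congr rfl fun i _ => ?_
    have := bc_key α i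
    push_cast
    calc bc α (i + 1) * (((i : ℝ) + 1) * x ^ i) = (((i : ℝ) + 1) * bc α (i + 1)) * x ^ i := by ring
      _ = α * bc (α - 1) i * x ^ i := by rw [this]
      _ = α * (bc (α - 1) i * x ^ i) := by ring
  rw [h2] at h1
  exact h1

theorem le_of_deriv {G g : ℝ → ℝ} (hG : ∀ x, 0 ≤ x → HasDerivAt G (g x) x) (hg : ∀ x, 0 ≤ x → 0 ≤ g x)
    {x : ℝ} (hx : 0 ≤ x) : G 0 ≤ G x := by
  have h1 : MonotoneOn G (Set.Ici 0) := by
    apply monotoneOn_of_deriv_nonneg (convex_Ici 0)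
    · exact fun y hy => (hG y hy).continuousAt.continuousWithinAt
    · intro y hy
      rw [interior_Ici] at hy
      exact (hG y (le_of_lt hy)).differentiableAt.differentiableWithinAt
    · intro y hy
      rw [interior_Ici] at hy
      rw [(hG y (le_of_lt hy)).deriv]
      exact hg y (le_of_lt hy)
  exact h1 (Set.mem_Ici.2 le_rfl) (Set.mem_Ici.2 hx) hx

theorem step {α ε : ℝ} {j : ℕ}
    (h : ∀ x : ℝ, 0 ≤ x → 0 ≤ ε * ((1 + x) ^ (α - 1) - psm (α - 1) j x) ∧
      ε * ((1 + x) ^ (α - 1) - psm (α - 1) j x) ≤ ε * (bc (α - 1) j * x ^ j)) {x : ℝ} (hx : 0 ≤ x) :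
    0 ≤ (α * ε) * ((1 + x) ^ α - psm α (j + 1) x) ∧
      (α * ε) * ((1 + x) ^ α - psm α (j + 1) x) ≤ (α * ε) * (bc α (j + 1) * x ^ (j + 1)) := by
  have hd : ∀ y : ℝ, 0 ≤ y → HasDerivAt (fun z : ℝ => (1 + z) ^ α) (α * (1 + y) ^ (α - 1)) y := by
    intro y hy
    have h1 : HasDerivAt (fun z : ℝ => 1 + z) 1 y := (hasDerivAt_id y).const_add 1
    have h2 := h1.rpow_const (p := α) (Or.inl (by positivity))
    simpa using h2
  have hG : ∀ y : ℝ, 0 ≤ y → HasDerivAt (fun z => (α * ε) * ((1 + z) ^ α - psm α (j + 1) z))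
      ((α * ε) * (α * (1 + y) ^ (α - 1) - α * psm (α - 1) j y)) y := fun y hy =>
    ((hd y hy).sub (hasDerivAt_psm α j y)).const_mul _
  have h0 : α * ε * ((1 + 0 : ℝ) ^ α - psm α (j + 1) 0) = 0 := by
    simp [psm_zero_right]
  constructor
  · have h1 := le_of_deriv hG (fun y hy => ?_) hx
    · rw [h0] at h1
      exact h1
    · have := (h y hy).1
      have e1 : (α * ε) * (α * (1 + y) ^ (α - 1) - α * psm (α - 1) j y) =
          α ^ 2 * (ε * ((1 + y) ^ (α - 1) - psm (α - 1) j y)) := by ring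
      rw [e1]
      positivity
  · have hH : ∀ y : ℝ, 0 ≤ y → HasDerivAt (fun z => (α * ε) * (bc α (j + 1) * z ^ (j + 1)))
        ((α * ε) * (bc α (j + 1) * (((j + 1 : ℕ) : ℝ) * y ^ j))) y := fun y _ => by
      have := ((hasDerivAt_pow (j + 1) y).const_mul (bc α (j + 1))).const_mul (α * ε)
      simpa using this
    have h1 := le_of_deriv (fun y hy => (hH y hy).sub (hG y hy)) (fun y hy => ?_) hx
    · simp only [Pi.sub_apply] at h1
      rw [h0] at h1
      simp only [ne_eq, Nat.add_eq_zero_iff, one_ne_zero, and_false, not_false_eq_true, zero_pow, mul_zero,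
        sub_zero] at h1
      linarith
    · have h2 := (h y hy).2
      have e1 : (α * ε) * (bc α (j + 1) * (((j + 1 : ℕ) : ℝ) * y ^ j)) -
          (α * ε) * (α * (1 + y) ^ (α - 1) - α * psm (α - 1) j y) =
          α ^ 2 * (ε * (bc (α - 1) j * y ^ j) - ε * ((1 + y) ^ (α - 1) - psm (α - 1) j y)) := by
        have := bc_key α j
        push_cast
        linear_combination (α * ε * y ^ j) * this
      rw [e1]
      have h3 : 0 ≤ ε * (bc (α - 1) j * y ^ j) - ε * ((1 + y) ^ (α - 1) - psm (α - 1) j y) := by linarith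
      positivity

theorem remainder_neg (j : ℕ) : ∀ {α : ℝ}, α < 0 → ∀ x : ℝ, 0 ≤ x →
    0 ≤ (-1) ^ j * ((1 + x) ^ α - psm α j x) ∧
      (-1) ^ j * ((1 + x) ^ α - psm α j x) ≤ (-1) ^ j * (bc α j * x ^ j) := by
  induction j with
  | zero =>
    intro α hα x hx
    have h1 : (1 + x) ^ α ≤ 1 := Real.rpow_le_one_of_one_le_of_nonpos (by linarith) hα.le
    have h2 : 0 ≤ (1 + x) ^ α := by positivity
    simp [psm, bc_zero, h1, h2]
  | succ j ih =>
    intro α hα x hx
    obtain ⟨h1, h2⟩ := step (fun y hy => ih (α := α - 1) (by linarith) y hy) hx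
    have hα' : 0 < -α := by linarith
    constructor
    · have e1 : (α * (-1) ^ j) * ((1 + x) ^ α - psm α (j + 1) x) =
          (-α) * ((-1) ^ (j + 1) * ((1 + x) ^ α - psm α (j + 1) x)) := by ring
      rw [e1] at h1
      exact nonneg_of_mul_nonneg_right h1 hα'
    · have e1 : (α * (-1) ^ j) * ((1 + x) ^ α - psm α (j + 1) x) =
          (-α) * ((-1) ^ (j + 1) * ((1 + x) ^ α - psm α (j + 1) x)) := by ring
      have e2 : (α * (-1) ^ j) * (bc α (j + 1) * x ^ (j + 1)) =
          (-α) * ((-1) ^ (j + 1) * (bc α (j + 1) * x ^ (j + 1))) := by ring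
      rw [e1, e2] at h2
      exact le_of_mul_le_mul_left h2 hα'

/-- The remainder of the binomial series of the square root has the sign of, and is at most, the next term. -/
theorem abs_sqrt_sub {x : ℝ} (hx : 0 ≤ x) (j : ℕ) :
    |√(1 + x) - psm (1 / 2) (j + 1) x| ≤ |bc (1 / 2) (j + 1)| * x ^ (j + 1) := by
  obtain ⟨h1, h2⟩ := step (α := 1 / 2) (ε := (-1) ^ j)
    (fun y hy => remainder_neg j (α := 1 / 2 - 1) (by norm_num) y hy) hx
  rw [← Real.sqrt_eq_rpow] at h1 h2
  have h3 : |(1 / 2 * (-1 : ℝ) ^ j) * (√(1 + x) - psm (1 / 2) (j + 1) x)| ≤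
      |(1 / 2 * (-1 : ℝ) ^ j) * (bc (1 / 2) (j + 1) * x ^ (j + 1))| := by
    rw [abs_of_nonneg h1]
    exact h2.trans (le_abs_self _)
  have e : |(1 / 2 * (-1 : ℝ) ^ j)| = 1 / 2 := by
    rw [abs_mul, abs_pow]
    norm_num
  rw [abs_mul, abs_mul _ (bc (1 / 2) (j + 1) * x ^ (j + 1)), e, abs_mul (bc (1 / 2) (j + 1)),
    abs_of_nonneg (pow_nonneg hx (j + 1))] at h3
  linarith

theorem abs_bc_succ_le (j : ℕ) : |bc (1 / 2) (j + 1)| ≤ |bc (1 / 2) j| := by
  rw [bc_succ, abs_mul]
  have h1 : |((1 : ℝ) / 2 - j) / (j + 1)| ≤ 1 := by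
    rw [abs_div, abs_of_pos (show (0 : ℝ) < j + 1 by positivity), div_le_one (by positivity), abs_le]
    have : (0 : ℝ) ≤ j := by positivity
    constructor <;> linarith
  calc |bc (1 / 2) j| * |((1 : ℝ) / 2 - j) / (j + 1)| ≤ |bc (1 / 2) j| * 1 := by gcongr
    _ = |bc (1 / 2) j| := mul_one _

theorem abs_bc_le_one (j : ℕ) : |bc (1 / 2) j| ≤ 1 := by
  induction j with
  | zero => simp [bc_zero]
  | succ j ih => exact (abs_bc_succ_le j).trans ih

theorem le_abs_bc (j : ℕ) : (1 / 4 : ℝ) ^ j ≤ |bc (1 / 2) j| := by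
  induction j with
  | zero => simp [bc_zero]
  | succ j ih =>
    rw [bc_succ, abs_mul, pow_succ]
    have h1 : (1 / 4 : ℝ) ≤ |((1 : ℝ) / 2 - j) / (j + 1)| := by
      rw [abs_div, abs_of_pos (show (0 : ℝ) < j + 1 by positivity), le_div_iff₀ (by positivity)]
      rcases Nat.eq_zero_or_pos j with h | h
      · subst h
        norm_num
      · have h2 : (1 : ℝ) ≤ j := by exact_mod_cast h
        rw [abs_of_nonpos (by linarith)]
        linarith
    gcongr

/-- The sign of the coefficients. -/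
def sg (j : ℕ) : ℤ := if j = 0 then 1 else (-1) ^ (j + 1)

theorem sg_mul_bc_pos (j : ℕ) : 0 < (sg j : ℝ) * bc (1 / 2) j := by
  have h1 : ∀ i : ℕ, 0 < (-1 : ℝ) ^ i * bc (1 / 2) (i + 1) := by
    intro i
    induction i with
    | zero => norm_num [bc]
    | succ i ih =>
      have e : (-1 : ℝ) ^ (i + 1) * bc (1 / 2) (i + 1 + 1) =
          ((-1 : ℝ) ^ i * bc (1 / 2) (i + 1)) * ((((i : ℝ) + 1) - 1 / 2) / (i + 1 + 1)) := by
        rw [bc_succ (1 / 2) (i + 1)]
        push_cast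
        ring
      rw [e]
      have h2 : 0 < (((i : ℝ) + 1) - 1 / 2) / (i + 1 + 1) := by
        apply div_pos
        · have : (0 : ℝ) ≤ i := by positivity
          linarith
        · positivity
      positivity
  rcases Nat.eq_zero_or_pos j with h | h
  · subst h
    norm_num [sg, bc]
  · obtain ⟨i, rfl⟩ := Nat.exists_eq_succ_of_ne_zero h.ne'
    have h2 := h1 i
    have e : (sg (i + 1) : ℝ) = (-1) ^ i := by
      simp [sg, pow_succ]
    rw [Nat.succ_eq_add_one, e]
    exact h2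

end Pool.Agent.Lib.H22W
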